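import Pool.Agent.helper40.SU.SpecB

/-!
# Project su, row SMB: one dyadic block of squarefree moduli
-/

set_option autoImplicit false

open Finset

namespace Pool.Agent.SU

theorem SMB_min (y : ℝ) (hy : 0 < y) : min 1 y ≤ y ^ (1 / 5 : ℝ) := by
  rcases le_total y 1 with h | h
  · rw [min_eq_right h]
    calc y = y ^ (1 : ℝ) := (Real.rpow_one y).symm
      _ ≤ y ^ (1 / 5 : ℝ) := Real.rpow_le_rpow_of_exponent_ge hy h (by norm_num)
  · rw [min_eq_left h]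
    exact Real.one_le_rpow h (by norm_num)

theorem SMB (hGC3 : GC3_stmt) : SMB_stmt := by
  intro c₀ C₀ q D₀ Γ K S hC₀ hΓ hK hSm hFam j a G hj hjK hjc hG hGK
  classical
  obtain ⟨hg2, hg1⟩ := hGC3 c₀ C₀ q D₀ Γ K S hSm hFam j hj hjK hjc
  have hΓR : (1 : ℝ) ≤ Γ := by exact_mod_cast hΓ
  have hKR : (1 : ℝ) ≤ K := by exact_mod_cast hK
  have hGR : (1 : ℝ) ≤ G := by exact_mod_cast hG
  have hjR : (1 : ℝ) ≤ j := by exact_mod_cast hj
  have hΓ0 : (0 : ℝ) < Γ := by linarith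
  have hK0 : (0 : ℝ) < K := by linarith
  have hG0 : (0 : ℝ) < G := by linarith
  have hj0 : (0 : ℝ) < j := by linarith
  have hgw0 : ∀ D, 0 ≤ gw D j := fun D => Real.rpow_nonneg (Nat.cast_nonneg _) _
  have hcD0 : ∀ D, 0 ≤ cD D := fun D => by unfold cD; positivity
  have hcD2 : ∀ D ∈ S, cD D ^ 2 ≤ 1 / (Γ * (K : ℝ) ^ 4) := by
    intro D hD
    have h1 : (Γ : ℝ) * (K : ℝ) ^ 4 ≤ D := by exact_mod_cast hFam.lo D hD
    have h2 : (0 : ℝ) < Γ * (K : ℝ) ^ 4 := by positivity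
    unfold cD
    rw [div_pow, one_pow, Real.sq_sqrt (by linarith)]
    exact one_div_le_one_div_of_le h2 h1
  have hcD1 : ∀ D ∈ S, cD D ≤ 1 / (√(Γ : ℝ) * (K : ℝ) ^ 2) := by
    intro D hD
    have h1 := hcD2 D hD
    have h2 : (1 / (√(Γ : ℝ) * (K : ℝ) ^ 2)) ^ 2 = 1 / (Γ * (K : ℝ) ^ 4) := by
      rw [div_pow, mul_pow, Real.sq_sqrt hΓ0.le, one_pow]
      ring
    rw [← h2] at h1
    exact (pow_le_pow_iff_left₀ (hcD0 D) (by positivity) two_ne_zero).1 h1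
  set B : Finset ℕ := (Ioc G (2 * G)).filter (fun b => Squarefree b ∧ b.Coprime (2 * q)) with hB
  set f : ℕ → ℝ := fun b => ∑ D ∈ S.filter (fun D => D.Coprime a), cD D * gw D j * (jacobiSym D b : ℝ) with hf
  set Y : ℝ := ∑ b ∈ B, f b ^ 2 with hY
  have h5 : (0 : ℝ) < 5 ^ (om j) := by positivity
  -- (i)
  have hi : (1 / (G : ℝ)) * Y ≤ 4 * 5 ^ (om j) / Γ := by
    have hf1 : ∀ b, |f b| ≤ 2 * 2 ^ (om j) / √(Γ : ℝ) := by
      intro b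
      have h1 : |f b| ≤ ∑ D ∈ S.filter (fun D => D.Coprime a), cD D * gw D j := by
        refine (abs_sum_le_sum_abs _ _).trans (sum_le_sum fun D _ => ?_)
        rw [abs_mul, abs_of_nonneg (mul_nonneg (hcD0 D) (hgw0 D))]
        have h2 : |(jacobiSym D b : ℝ)| ≤ 1 := by
          rcases jacobiSym.trichotomy (D : ℤ) b with h | h | h <;> rw [h] <;> norm_num
        exact mul_le_of_le_one_right (mul_nonneg (hcD0 D) (hgw0 D)) h2
      have h2 : ∑ D ∈ S.filter (fun D => D.Coprime a), cD D * gw D j ≤ ∑ D ∈ S, cD D * gw D j :=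
        sum_le_sum_of_subset_of_nonneg (filter_subset _ _) fun D _ _ => mul_nonneg (hcD0 D) (hgw0 D)
      have h3 : ∑ D ∈ S, cD D * gw D j ≤ 1 / (√(Γ : ℝ) * (K : ℝ) ^ 2) * ∑ D ∈ S, gw D j := by
        rw [mul_sum]
        exact sum_le_sum fun D hD => mul_le_mul_of_nonneg_right (hcD1 D hD) (hgw0 D)
      have h4 : 1 / (√(Γ : ℝ) * (K : ℝ) ^ 2) * ∑ D ∈ S, gw D j ≤
          1 / (√(Γ : ℝ) * (K : ℝ) ^ 2) * (2 * (K : ℝ) ^ 2 * 2 ^ (om j)) :=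
        mul_le_mul_of_nonneg_left hg1 (by positivity)
      have h6 : 1 / (√(Γ : ℝ) * (K : ℝ) ^ 2) * (2 * (K : ℝ) ^ 2 * 2 ^ (om j)) = 2 * 2 ^ (om j) / √(Γ : ℝ) := by
        have : √(Γ : ℝ) ≠ 0 := (Real.sqrt_pos.2 hΓ0).ne'
        field_simp
      linarith
    have hf2 : ∀ b ∈ B, f b ^ 2 ≤ 4 * 4 ^ (om j) / Γ := by
      intro b _
      have h1 : f b ^ 2 ≤ (2 * 2 ^ (om j) / √(Γ : ℝ)) ^ 2 := sq_le_sq' (by have := (abs_le.1 (hf1 b)).1; linarith) (abs_le.1 (hf1 b)).2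
      refine h1.trans (le_of_eq ?_)
      rw [div_pow, mul_pow, Real.sq_sqrt hΓ0.le, ← pow_mul, mul_comm (om j) 2, pow_mul]
      norm_num
    have hBc : (B.card : ℝ) ≤ G := by
      have h1 : B.card ≤ G := by
        have h2 : B.card ≤ (Ioc G (2 * G)).card := card_filter_le _ _
        rw [Nat.card_Ioc] at h2
        omega
      exact_mod_cast h1
    have h1 : Y ≤ G * (4 * 4 ^ (om j) / Γ) := by
      have h2 := sum_le_sum hf2
      rw [sum_const, nsmul_eq_mul] at h2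
      exact h2.trans (mul_le_mul_of_nonneg_right hBc (by positivity))
    have h2 : (1 / (G : ℝ)) * Y ≤ 4 * 4 ^ (om j) / Γ := by
      rw [one_div_mul_eq_div, div_le_iff₀ hG0]
      linarith
    refine h2.trans ?_
    have h3 : (4 : ℝ) ^ (om j) ≤ 5 ^ (om j) := pow_le_pow_left₀ (by norm_num) (by norm_num) _
    gcongr
  -- (ii)
  have hGe : (1 / (G : ℝ)) * (G : ℝ) ^ (1 / 10 : ℝ) = (G : ℝ) ^ (-(9 / 10) : ℝ) := by
    rw [one_div, ← Real.rpow_neg_one, ← Real.rpow_add hG0]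
    norm_num
  have hii : (1 / (G : ℝ)) * Y ≤ (4 * 5 ^ (om j) / Γ) * ((2 * C₀ + 1) * (G : ℝ) ^ (-(9 / 10) : ℝ) * √(j : ℝ)) := by
    have h1 := hFam.dls G (fun D => if D.Coprime a then cD D * gw D j else 0) hG hGK
    have h2 : ∀ b, ∑ D ∈ S, (if D.Coprime a then cD D * gw D j else 0) * (jacobiSym D b : ℝ) = f b := by
      intro b
      rw [hf]
      simp only
      rw [sum_filter]
      refine sum_congr rfl fun D _ => ?_
      split_ifs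
      · rfl
      · rw [zero_mul]
    simp only [h2] at h1
    have h3 : ∑ D ∈ S, (if D.Coprime a then cD D * gw D j else 0) ^ 2 ≤
        1 / (Γ * (K : ℝ) ^ 4) * (2 * (K : ℝ) ^ 2 * 5 ^ (om j) * √(j : ℝ)) := by
      have h4 : ∑ D ∈ S, (if D.Coprime a then cD D * gw D j else 0) ^ 2 ≤ ∑ D ∈ S, 1 / (Γ * (K : ℝ) ^ 4) * gw D j ^ 2 := by
        refine sum_le_sum fun D hD => ?_
        have h5 : 0 ≤ 1 / (Γ * (K : ℝ) ^ 4) * gw D j ^ 2 := by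
          have := hgw0 D
          positivity
        split_ifs
        · rw [mul_pow]
          exact mul_le_mul_of_nonneg_right (hcD2 D hD) (sq_nonneg _)
        · simpa using h5
      rw [← mul_sum] at h4
      exact h4.trans (mul_le_mul_of_nonneg_left hg2 (by positivity))
    have h4 : Y ≤ C₀ * (K : ℝ) ^ 2 * (G : ℝ) ^ (1 / 10 : ℝ) * (1 / (Γ * (K : ℝ) ^ 4) * (2 * (K : ℝ) ^ 2 * 5 ^ (om j) * √(j : ℝ))) := by
      refine h1.trans (mul_le_mul_of_nonneg_left h3 ?_)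
      have : 0 ≤ (G : ℝ) ^ (1 / 10 : ℝ) := Real.rpow_nonneg hG0.le _
      positivity
    have h5 : C₀ * (K : ℝ) ^ 2 * (G : ℝ) ^ (1 / 10 : ℝ) * (1 / (Γ * (K : ℝ) ^ 4) * (2 * (K : ℝ) ^ 2 * 5 ^ (om j) * √(j : ℝ))) =
        (4 * 5 ^ (om j) / Γ) * (C₀ / 2 * (G : ℝ) ^ (1 / 10 : ℝ) * √(j : ℝ)) := by
      field_simp
      ring
    rw [h5] at h4
    have h6 : (1 / (G : ℝ)) * Y ≤ (1 / (G : ℝ)) * ((4 * 5 ^ (om j) / Γ) * (C₀ / 2 * (G : ℝ) ^ (1 / 10 : ℝ) * √(j : ℝ))) :=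
      mul_le_mul_of_nonneg_left h4 (by positivity)
    refine h6.trans ?_
    have h7 : (1 / (G : ℝ)) * ((4 * 5 ^ (om j) / Γ) * (C₀ / 2 * (G : ℝ) ^ (1 / 10 : ℝ) * √(j : ℝ))) =
        (4 * 5 ^ (om j) / Γ) * (C₀ / 2 * ((1 / (G : ℝ)) * (G : ℝ) ^ (1 / 10 : ℝ)) * √(j : ℝ)) := by ring
    rw [h7, hGe]
    have h8 : 0 ≤ (G : ℝ) ^ (-(9 / 10) : ℝ) := Real.rpow_nonneg hG0.le _
    gcongr
    linarith
  -- conclusion
  set y : ℝ := (2 * C₀ + 1) * (G : ℝ) ^ (-(9 / 10) : ℝ) * √(j : ℝ) with hy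
  have hA0 : 0 < 2 * C₀ + 1 := by linarith
  have hG9 : 0 < (G : ℝ) ^ (-(9 / 10) : ℝ) := Real.rpow_pos_of_pos hG0 _
  have hsj : 0 < √(j : ℝ) := Real.sqrt_pos.2 hj0
  have hy0 : 0 < y := by positivity
  have hW : 0 < 4 * 5 ^ (om j) / (Γ : ℝ) := by positivity
  have h1 : (1 / (G : ℝ)) * Y ≤ (4 * 5 ^ (om j) / Γ) * min 1 y := by
    rcases le_total 1 y with h | h
    · rw [min_eq_left h, mul_one]
      exact hi
    · rw [min_eq_right h]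
      exact hii
  have h2 : y ^ (1 / 5 : ℝ) ≤ (2 * C₀ + 1) * (G : ℝ) ^ (-(9 / 50) : ℝ) * (j : ℝ) ^ (1 / 10 : ℝ) := by
    rw [hy, Real.mul_rpow (by positivity) hsj.le, Real.mul_rpow hA0.le hG9.le, ← Real.rpow_mul hG0.le, Real.sqrt_eq_rpow,
      ← Real.rpow_mul hj0.le]
    have h3 : (2 * C₀ + 1) ^ (1 / 5 : ℝ) ≤ 2 * C₀ + 1 := by
      calc (2 * C₀ + 1) ^ (1 / 5 : ℝ) ≤ (2 * C₀ + 1) ^ (1 : ℝ) :=
            Real.rpow_le_rpow_of_exponent_le (by linarith) (by norm_num)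
        _ = 2 * C₀ + 1 := Real.rpow_one _
    have e1 : (-(9 / 10) : ℝ) * (1 / 5) = -(9 / 50) := by norm_num
    have e2 : (1 / 2 : ℝ) * (1 / 5) = 1 / 10 := by norm_num
    rw [e1, e2]
    have h4 : 0 ≤ (G : ℝ) ^ (-(9 / 50) : ℝ) := Real.rpow_nonneg hG0.le _
    have h6 : 0 ≤ (j : ℝ) ^ (1 / 10 : ℝ) := Real.rpow_nonneg hj0.le _
    gcongr
  refine h1.trans ((mul_le_mul_of_nonneg_left ((SMB_min y hy0).trans h2) hW.le).trans (le_of_eq ?_))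
  ring

end Pool.Agent.SU
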