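import Pool.Agent.helper40.SU.SpecA

/-!
# Project su, Part I, row SQF: few values which are not squarefree
-/

set_option autoImplicit false

open Finset

namespace Pool.Agent.SU

/-- `π(x) ≤ δ x` for large `x` -/
theorem SQF_pi (δ : ℝ) (hδ : 0 < δ) : ∃ N₀ : ℕ, ∀ n ≥ N₀, (Nat.primeCounting n : ℝ) ≤ δ * n := by
  have h1 := Chebyshev.eventually_primeCounting_le (ε := 1) one_pos
  have h2 : Filter.Tendsto Real.log Filter.atTop Filter.atTop := Real.tendsto_log_atTop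
  have h3 := h2.eventually_ge_atTop ((Real.log 4 + 1) / δ)
  have h4 : ∀ᶠ x : ℝ in Filter.atTop, (Nat.primeCounting ⌊x⌋₊ : ℝ) ≤ δ * x := by
    filter_upwards [h1, h3, Filter.eventually_gt_atTop 1] with x hx1 hx2 hx3
    have hl : 0 < Real.log x := Real.log_pos hx3
    refine hx1.trans ?_
    rw [div_le_iff₀ hl]
    rw [div_le_iff₀ hδ] at hx2
    nlinarith
  obtain ⟨N₀, hN₀⟩ := Filter.eventually_atTop.1 ((tendsto_natCast_atTop_atTop (R := ℝ)).eventually h4)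
  refine ⟨N₀, fun n hn => ?_⟩
  have := hN₀ n hn
  rwa [Nat.floor_natCast] at this

/-- the divisor `p²` determines a root modulo `p²` -/
theorem SQF_root {Z m q u₀ k₀ p u k : ℕ} (hZ : 7 ≤ Z) (hD : Dat Z m q u₀ k₀) (hp : p.Prime) (hpq : ¬ p ∣ 2 * q)
    (hc : u.Coprime k) (hdv : p ^ 2 ∣ Df m u k) :
    ∃ y ∈ (range (p ^ 2)).filter (fun y => p ^ 2 ∣ Df m 1 y), ((p ^ 2 : ℕ) : ℤ) ∣ (k : ℤ) - (y : ℤ) * u := by
  have hp7 : 7 < p := by
    by_contra hh
    exact hpq (hD.small p hp (by omega))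
  have hpu : ¬ p ∣ u := by
    intro h
    have h1 : p ∣ Df m u k := (dvd_pow_self p two_ne_zero).trans hdv
    have h2 : p ∣ (m ^ 2 + 1) * u ^ 4 := Dvd.dvd.mul_left (dvd_pow h (by norm_num)) _
    have h3 : p ∣ (k * (m ^ 2 * u + 420 * k)) ^ 2 := by
      have := (Nat.dvd_add_right h2).1 h1
      exact this
    have h4 := hp.dvd_of_dvd_pow h3
    have hpk : p ∣ k := by
      rcases hp.dvd_mul.1 h4 with h5 | h5
      · exact h5
      · have h6 : p ∣ 420 * k := (Nat.dvd_add_right (Dvd.dvd.mul_left h _)).1 h5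
        rcases hp.dvd_mul.1 h6 with h7 | h7
        · exfalso
          have h8 : p ∣ 2 * 2 * 3 * 5 * 7 := by simpa using h7
          have hq : ∀ r : ℕ, r.Prime → p ∣ r → p = r := fun r hr h => (Nat.prime_dvd_prime_iff_eq hp hr).1 h
          rcases hp.dvd_mul.1 h8 with h9 | h9
          · rcases hp.dvd_mul.1 h9 with h9 | h9
            · rcases hp.dvd_mul.1 h9 with h9 | h9
              · rcases hp.dvd_mul.1 h9 with h9 | h9
                · have := hq 2 (by norm_num) h9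
                  omega
                · have := hq 2 (by norm_num) h9
                  omega
              · have := hq 3 (by norm_num) h9
                omega
            · have := hq 5 (by norm_num) h9
              omega
          · have := hq 7 (by norm_num) h9
            omega
        · exact h7
    exact hp.one_lt.ne' (Nat.dvd_one.1 (hc ▸ Nat.dvd_gcd h hpk))
  have hcop : Nat.Coprime u (p ^ 2) := ((Nat.Prime.coprime_iff_not_dvd hp).2 hpu).symm.pow_right 2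
  have hpos : 0 < p ^ 2 := pow_pos hp.pos 2
  have : NeZero (p ^ 2) := ⟨hpos.ne'⟩
  -- the unit `u` of `ZMod (p²)`
  have huu : IsUnit ((u : ℕ) : ZMod (p ^ 2)) := (ZMod.isUnit_iff_coprime u (p ^ 2)).2 hcop
  obtain ⟨w, hw⟩ := huu
  set z : ZMod (p ^ 2) := (k : ZMod (p ^ 2)) * (↑(w⁻¹) : ZMod (p ^ 2)) with hz
  have hzu : z * (u : ZMod (p ^ 2)) = k := by
    rw [hz, ← hw, mul_assoc, Units.inv_mul, mul_one]
  have hval : ((z.val : ℕ) : ZMod (p ^ 2)) = z := ZMod.natCast_zmod_val z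
  have hDf0 : ((Df m u k : ℕ) : ZMod (p ^ 2)) = 0 := (ZMod.natCast_eq_zero_iff _ _).2 hdv
  have hDf1 : ((Df m u k : ℕ) : ZMod (p ^ 2)) = (u : ZMod (p ^ 2)) ^ 4 * ((Df m 1 z.val : ℕ) : ZMod (p ^ 2)) := by
    simp only [Df]
    push_cast
    rw [hval, ← hzu]
    ring
  have hDf2 : ((Df m 1 z.val : ℕ) : ZMod (p ^ 2)) = 0 := by
    have h1 : (u : ZMod (p ^ 2)) ^ 4 * ((Df m 1 z.val : ℕ) : ZMod (p ^ 2)) = 0 := by rw [← hDf1, hDf0]
    have h2 : IsUnit ((u : ZMod (p ^ 2)) ^ 4) := (hw ▸ w.isUnit).pow 4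
    exact (h2.mul_right_eq_zero).1 h1
  refine ⟨z.val, mem_filter.2 ⟨mem_range.2 (ZMod.val_lt z), (ZMod.natCast_eq_zero_iff _ _).1 hDf2⟩, ?_⟩
  have h3 : (((k : ℤ) - (z.val : ℤ) * u : ℤ) : ZMod (p ^ 2)) = 0 := by
    push_cast
    rw [hval, hzu, sub_self]
  exact (ZMod.intCast_zmod_eq_zero_iff_dvd _ _).1 h3

theorem SQF (hRT1 : RT1_stmt) (hLIN : LIN_stmt) (hDCO : DCO_stmt) (hGAP : GAP_stmt) : SQF_stmt := by
  intro Z m q u₀ k₀ hZ hD ε hε
  classical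
  have hq1 : 1 ≤ q := by
    rcases hD.q_odd with ⟨t, ht⟩
    omega
  have hqR : (1 : ℝ) ≤ q := by exact_mod_cast hq1
  set Γ := Df m (64 * q) (64 * q) with hΓ
  set C : ℕ := 4 * (Nat.sqrt Γ + 1) with hC
  have hC1 : 1 ≤ C := by omega
  have hCR : (0 : ℝ) < C := by exact_mod_cast hC1
  set M₁ : ℝ := 8 * (512 * q / ε) ^ 2 + 2 with hM₁
  have hM₁0 : 0 < M₁ := by positivity
  set δ : ℝ := ε / (8 * M₁ * C) with hδ
  have hδ0 : 0 < δ := by positivity
  obtain ⟨N₀, hN₀⟩ := SQF_pi δ hδ0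
  refine ⟨N₀ + 1, fun K hK => ?_⟩
  have hK1 : 1 ≤ K := by omega
  have hKR : (1 : ℝ) ≤ K := by exact_mod_cast hK1
  have hZR : (0 : ℝ) < Z := by
    have : 0 < Z := by omega
    exact_mod_cast this
  obtain ⟨-, hbox⟩ := hDCO Z m q u₀ k₀ K hD hK1
  set P := Px q u₀ k₀ K with hP
  have hPB : ∀ x ∈ P, x ∈ Bx q u₀ k₀ K ∧ x.1.Coprime x.2 := fun x hx => mem_filter.1 hx
  set T : ℕ := ⌊ε * K / 8⌋₊ with hT
  set Y : ℕ := C * K ^ 2 with hY
  set Np : ℕ → Finset (ℕ × ℕ) := fun p => P.filter (fun x => p ^ 2 ∣ Df m x.1 x.2) with hNp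
  set A1 : Finset ℕ := (Ioc Z (max Z T)).filter (fun p => p.Prime ∧ ¬ p ∣ 2 * q ∧ p ≤ T) with hA1
  set A2 : Finset ℕ := (range (Y + 1)).filter (fun p => p.Prime ∧ ¬ p ∣ 2 * q ∧ T < p) with hA2
  -- the cover
  have hcov : P.filter (fun x => ¬ Squarefree (Df m x.1 x.2)) ⊆ A1.biUnion Np ∪ A2.biUnion Np := by
    intro x hx
    obtain ⟨hxP, hxs⟩ := mem_filter.1 hx
    obtain ⟨hxB, hxc⟩ := hPB x hxP
    obtain ⟨-, h8, hcop, -, -, -, -, -, hhi⟩ := hbox x hxB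
    rw [Nat.squarefree_iff_prime_squarefree] at hxs
    push Not at hxs
    obtain ⟨p, hp, hpd⟩ := hxs
    have hpd2 : p ^ 2 ∣ Df m x.1 x.2 := by rw [pow_two]; exact hpd
    have hpd1 : p ∣ Df m x.1 x.2 := (dvd_pow_self p two_ne_zero).trans hpd2
    have hpq : ¬ p ∣ 2 * q := fun h => hp.one_lt.ne' (Nat.dvd_one.1 (hcop ▸ Nat.dvd_gcd hpd1 h))
    have hpZ : Z < p := by
      by_contra hh
      exact hpq (hD.small p hp (by omega))
    have hxN : x ∈ Np p := mem_filter.2 ⟨hxP, hpd2⟩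
    rw [mem_union]
    by_cases hpT : p ≤ T
    · left
      refine mem_biUnion.2 ⟨p, mem_filter.2 ⟨mem_Ioc.2 ⟨hpZ, ?_⟩, hp, hpq, hpT⟩, hxN⟩
      exact hpT.trans (le_max_right _ _)
    · right
      refine mem_biUnion.2 ⟨p, mem_filter.2 ⟨mem_range.2 ?_, hp, hpq, by omega⟩, hxN⟩
      have h1 : p ^ 2 ≤ Df m x.1 x.2 := Nat.le_of_dvd (by omega) hpd2
      have h2 : Γ < (Nat.sqrt Γ + 1) ^ 2 := by
        have := Nat.lt_succ_sqrt Γ
        rw [pow_two]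
        exact this
      have h3 : p ^ 2 ≤ Y ^ 2 := by
        calc p ^ 2 ≤ 16 * Γ * K ^ 4 := h1.trans hhi
          _ ≤ 16 * (Nat.sqrt Γ + 1) ^ 2 * K ^ 4 := by gcongr
          _ = Y ^ 2 := by rw [hY, hC]; ring
      have h4 : p ≤ Y := le_of_not_gt fun hh => absurd h3 (not_le.2 (Nat.pow_lt_pow_left hh two_ne_zero))
      omega
  have hcard : ((P.filter (fun x => ¬ Squarefree (Df m x.1 x.2))).card : ℝ) ≤
      ∑ p ∈ A1, ((Np p).card : ℝ) + ∑ p ∈ A2, ((Np p).card : ℝ) := by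
    have h1 := card_le_card hcov
    have h2 := card_union_le (A1.biUnion Np) (A2.biUnion Np)
    have h3 := card_biUnion_le (s := A1) (t := Np)
    have h4 := card_biUnion_le (s := A2) (t := Np)
    have h5 : (P.filter (fun x => ¬ Squarefree (Df m x.1 x.2))).card ≤ ∑ p ∈ A1, (Np p).card + ∑ p ∈ A2, (Np p).card := by
      omega
    exact_mod_cast h5
  -- part (a)
  have hA : ∑ p ∈ A1, ((Np p).card : ℝ) ≤ 4 * (K : ℝ) ^ 2 / Z + ε / 2 * (K : ℝ) ^ 2 := by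
    have h1 : ∀ p ∈ A1, ((Np p).card : ℝ) ≤ 4 * (K : ℝ) ^ 2 * ((p : ℝ) ^ 2)⁻¹ + 4 * K := by
      intro p hp
      obtain ⟨-, hpp, hpq, -⟩ := mem_filter.1 hp
      have hcop : Nat.Coprime (p ^ 2) (2 * q) := ((Nat.Prime.coprime_iff_not_dvd hpp).2 hpq).pow_left 2
      have h2 := hLIN Z m q u₀ k₀ hZ hD K (p ^ 2) (Nat.one_le_pow _ _ hpp.pos) hcop
      have h3 : (rt m (p ^ 2) : ℝ) ≤ 4 := by exact_mod_cast (hRT1 Z m q u₀ k₀ hZ hD p hpp hpq).2
      have hppR : (0 : ℝ) < (p : ℝ) ^ 2 := pow_pos (by exact_mod_cast hpp.pos) 2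
      have h4 : (0 : ℝ) ≤ (K : ℝ) ^ 2 / ((p ^ 2 : ℕ) : ℝ) + K := by positivity
      refine h2.trans ((mul_le_mul_of_nonneg_right h3 h4).trans (le_of_eq ?_))
      push_cast
      field_simp
    refine (sum_le_sum h1).trans ?_
    rw [sum_add_distrib, ← mul_sum]
    have h5 : ∑ p ∈ A1, ((p : ℝ) ^ 2)⁻¹ ≤ (Z : ℝ)⁻¹ := by
      have h6 : ∑ p ∈ A1, ((p : ℝ) ^ 2)⁻¹ ≤ ∑ p ∈ Ioc Z (max Z T), ((p : ℝ) ^ 2)⁻¹ := by
        refine sum_le_sum_of_subset_of_nonneg (filter_subset _ _) fun i _ _ => ?_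
        positivity
      have h7 := sum_Ioc_inv_sq_le_sub (α := ℝ) (k := Z) (n := max Z T) (by omega) (le_max_left _ _)
      have h8 : (0 : ℝ) ≤ ((max Z T : ℕ) : ℝ)⁻¹ := by positivity
      linarith
    have h9 : ∑ p ∈ A1, (4 * (K : ℝ)) ≤ ε / 2 * (K : ℝ) ^ 2 := by
      rw [sum_const, nsmul_eq_mul]
      have h10 : (A1.card : ℝ) ≤ ε * K / 8 := by
        have h11 : A1.card ≤ T := by
          have h12 : A1 ⊆ Ioc 0 T := by
            intro p hp
            obtain ⟨-, hpp, -, hpT⟩ := mem_filter.1 hp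
            exact mem_Ioc.2 ⟨hpp.pos, hpT⟩
          have := card_le_card h12
          rwa [Nat.card_Ioc, Nat.sub_zero] at this
        have h12 : (T : ℝ) ≤ ε * K / 8 := Nat.floor_le (by positivity)
        have h13 : (A1.card : ℝ) ≤ T := by exact_mod_cast h11
        exact h13.trans h12
      nlinarith
    have h14 : 4 * (K : ℝ) ^ 2 * ∑ p ∈ A1, ((p : ℝ) ^ 2)⁻¹ ≤ 4 * (K : ℝ) ^ 2 / Z := by
      rw [div_eq_mul_inv]
      exact mul_le_mul_of_nonneg_left h5 (by positivity)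
    linarith
  -- part (b)
  have hB1 : ∀ p ∈ A2, ((Np p).card : ℝ) ≤ 4 * M₁ := by
    intro p hp
    obtain ⟨-, hpp, hpq, hpT⟩ := mem_filter.1 hp
    set R := (range (p ^ 2)).filter (fun y => p ^ 2 ∣ Df m 1 y) with hR
    set Q : ℕ → Finset (ℕ × ℕ) := fun y => P.filter (fun x => ((p ^ 2 : ℕ) : ℤ) ∣ (x.2 : ℤ) - (y : ℤ) * x.1) with hQ
    have hsub : Np p ⊆ R.biUnion Q := by
      intro x hx
      obtain ⟨hxP, hxd⟩ := mem_filter.1 hx
      obtain ⟨y, hy, hyd⟩ := SQF_root hZ hD hpp hpq (hPB x hxP).2 hxd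
      exact mem_biUnion.2 ⟨y, hy, mem_filter.2 ⟨hxP, hyd⟩⟩
    have hppR : (0 : ℝ) < (p : ℝ) := by exact_mod_cast hpp.pos
    have hQc : ∀ y ∈ R, ((Q y).card : ℝ) ≤ M₁ := by
      intro y _
      have h1 := hGAP (Q y) (64 * q * K) (p ^ 2) (y : ℤ) (Nat.mul_pos (by omega) hK1) (Nat.one_le_pow _ _ hpp.pos) ?_
      · refine h1.trans ?_
        rw [hM₁]
        have h2 : ε * K / 8 < p := by
          have h3 : ε * K / 8 < (T : ℝ) + 1 := Nat.lt_floor_add_one _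
          have h4 : ((T : ℝ) + 1) ≤ p := by exact_mod_cast hpT
          linarith
        have h5 : ((64 * q * K : ℕ) : ℝ) ^ 2 / ((p ^ 2 : ℕ) : ℝ) ≤ (512 * q / ε) ^ 2 := by
          push_cast
          rw [← div_pow]
          refine pow_le_pow_left₀ (by positivity) ?_ 2
          rw [div_le_div_iff₀ hppR hε]
          have h6 : ε * K < 8 * p := by linarith
          have h7 : 0 ≤ 64 * (q : ℝ) := by positivity
          nlinarith
        have h8 : 8 * ((64 * q * K : ℕ) : ℝ) ^ 2 / ((p ^ 2 : ℕ) : ℝ) = 8 * (((64 * q * K : ℕ) : ℝ) ^ 2 / ((p ^ 2 : ℕ) : ℝ)) := by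
          ring
        rw [h8]
        linarith
      · intro x hx
        obtain ⟨hxP, hxd⟩ := mem_filter.1 hx
        obtain ⟨hxB, hxc⟩ := hPB x hxP
        obtain ⟨-, -, -, ha, hb, hc, hd, -, -⟩ := hbox x hxB
        exact ⟨hxc, ha, by nlinarith, hb, by nlinarith, hxd⟩
    have h1 : ((Np p).card : ℝ) ≤ ∑ y ∈ R, ((Q y).card : ℝ) := by
      have h2 := (card_le_card hsub).trans card_biUnion_le
      exact_mod_cast h2
    have h2 : ∑ y ∈ R, ((Q y).card : ℝ) ≤ R.card * M₁ := by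
      have := sum_le_sum hQc
      rwa [sum_const, nsmul_eq_mul] at this
    have h3 : (R.card : ℝ) ≤ 4 := by exact_mod_cast (hRT1 Z m q u₀ k₀ hZ hD p hpp hpq).2
    have h4 : (R.card : ℝ) * M₁ ≤ 4 * M₁ := mul_le_mul_of_nonneg_right h3 hM₁0.le
    linarith
  have hB : ∑ p ∈ A2, ((Np p).card : ℝ) ≤ ε / 2 * (K : ℝ) ^ 2 := by
    have h1 : ∑ p ∈ A2, ((Np p).card : ℝ) ≤ A2.card * (4 * M₁) := by
      have := sum_le_sum hB1
      rwa [sum_const, nsmul_eq_mul] at this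
    have h2 : A2.card ≤ Nat.primeCounting Y := by
      have h3 : A2 ⊆ (range (Y + 1)).filter Nat.Prime := by
        intro p hp
        obtain ⟨h4, h5, -⟩ := mem_filter.1 hp
        exact mem_filter.2 ⟨h4, h5⟩
      have h4 := card_le_card h3
      have h5 : ((range (Y + 1)).filter Nat.Prime).card = Nat.primeCounting Y := by
        rw [Nat.primeCounting, Nat.primeCounting', Nat.count_eq_card_filter_range]
      rwa [h5] at h4
    have h5 : N₀ ≤ Y := by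
      have h6 : K ≤ K ^ 2 := Nat.le_self_pow two_ne_zero K
      have h7 : K ^ 2 ≤ C * K ^ 2 := Nat.le_mul_of_pos_left _ hC1
      omega
    have h8 : (A2.card : ℝ) ≤ δ * Y := by
      have h9 : (A2.card : ℝ) ≤ Nat.primeCounting Y := by exact_mod_cast h2
      exact h9.trans (hN₀ Y h5)
    have h10 : (A2.card : ℝ) * (4 * M₁) ≤ δ * Y * (4 * M₁) := mul_le_mul_of_nonneg_right h8 (by positivity)
    have h11 : δ * Y * (4 * M₁) = ε / 2 * (K : ℝ) ^ 2 := by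
      rw [hδ, hY]
      push_cast
      field_simp
      ring
    linarith
  have hfin : 4 * (K : ℝ) ^ 2 / Z ≤ 8 / Z * (K : ℝ) ^ 2 := by
    have h1 : 8 / (Z : ℝ) * (K : ℝ) ^ 2 - 4 * (K : ℝ) ^ 2 / Z = 4 * (K : ℝ) ^ 2 / Z := by ring
    have h2 : 0 ≤ 4 * (K : ℝ) ^ 2 / Z := by positivity
    linarith
  have hgoal : (8 / (Z : ℝ) + ε) * (K : ℝ) ^ 2 = 8 / Z * (K : ℝ) ^ 2 + (ε / 2 * (K : ℝ) ^ 2 + ε / 2 * (K : ℝ) ^ 2) := by ring
  rw [hgoal]
  linarith

end Pool.Agent.SU
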